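import Pool.Agent.Helper1.KA.Stmts2
import Pool.Agent.Helper1.KA.GeneralB

/-!
Project KA (MP_0b9e0b_ag), KA-14a: the classes of the points with `m` affine coordinates, modulo
those of the points with less affine coordinates, are generated by the classes of good points.
-/

set_option autoImplicit false

namespace Pool.Agent.Helper11.KA

open Pool.Agent.Helper16
open Pool.Agent.Helper1.KL (Var VarF Key key fld spec cyc relations rat CH coef Idx)
open Pool.Agent.Helper1.KL (aff xc yc tr ec red xpt perp Prp ratf Vert Con At0 Quo cls IT RT)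
open Pool.Agent.Helper1.KA

variable {k : Type} [Field k] {p a : ℕ} [Fact p.Prime] [CharP k p] {n : ℕ} {c : Fin n → k} {r : ℕ}

/-- KA-14a. -/
theorem modDec : ModDec k p a c r := by
  classical
  intro m
  unfold GG
  rw [Submodule.span_le]
  rintro _ ⟨N, _, _, z, hz, hr, hm, rfl⟩
  rcases lt_or_eq_of_le (Nat.lt_succ_iff.1 hm) with h | h
  · exact Submodule.mem_sup_left (Submodule.subset_span
      ⟨N, inferInstance, inferInstance, z, hz, hr, h, rfl⟩)
  · refine Submodule.mem_sup_right ?_
    have h1 : cl p a c r z ∈ GI k p a c r (aff z) := by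
      let aN : Algebra k N :=
        ((algebraMap (RatFunc k) N).comp (algebraMap k (RatFunc k))).toAlgebra
      have hT : IsScalarTower k (RatFunc k) N := IsScalarTower.of_algebraMap_eq fun _ => rfl
      exact Submodule.subset_span ⟨N, inferInstance, aN, inferInstance, hT, z,
        Good.of_XV hz hr, rfl⟩
    exact (le_iSup_of_le (aff z) (le_iSup_of_le h le_rfl) :
      GI k p a c r (aff z) ≤ ⨆ (I : Finset (Fin n)) (_ : I.card = m), GI k p a c r I) h1

end Pool.Agent.Helper11.KA
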